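import Pool.Agent.Helper98_CC.Stmts
import Pool.Agent.Helper62_WRA.Mzero

/-!
CC, module BOXT: the sum over the families stabilised by a transitive group (adapted from the
module MZERO of the wreath product squad).
-/

open scoped BigOperators

noncomputable section

namespace Pool.Agent.Helper29_CC

open Pool.Agent.Helper51_AWC Pool.Agent.Helper79_WRA Pool.Agent.Helper79_WRA.H62
open Pool.Agent.Helper98_CC

section
variable {G Δ K : Type} [Group G] [Group K] [MulAction K Δ]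
variable {ω : Set Δ} {j₀ : Δ}

theorem chains_empty [Finite G] [Finite Δ] {ℓ : ℕ} (hE : IsEmpty {j // j ∉ ω}) :
    chainsOn (boxes ℓ G {j // j ∉ ω}) (fun _ => ⊥) = {{fun _ => ⊥}} := by
  ext c
  rw [Finset.mem_singleton, mem_chainsOn]
  constructor
  · rintro ⟨_, h2, _⟩
    ext R
    rw [Finset.mem_singleton]
    have hR : R = fun _ => ⊥ := Subsingleton.elim _ _
    constructor
    · intro _; exact hR
    · intro _; rw [hR]; exact h2
  · rintro rfl
    refine ⟨?_, Finset.mem_singleton_self _, ?_⟩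
    · intro R _
      exact mem_boxes.2 fun j => hE.elim j
    · intro x _ y _ hne
      exact absurd (Subsingleton.elim x y) hne

theorem chars_empty [Finite G] [Finite Δ] (hE : IsEmpty {j // j ∉ ω})
    (c : Finset ({j // j ∉ ω} → Subgroup G)) : (charsOf c).card = 1 := by
  rw [Finset.card_eq_one]
  refine ⟨fun j => hE.elim j, ?_⟩
  ext α
  rw [Finset.mem_singleton, mem_charsOf]
  constructor
  · intro _; exact Subsingleton.elim _ _
  · intro _ j
    exact hE.elim j

open Classical in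
/-- the sum for fixed conjugating elements -/
theorem fixed_val [Finite G] [Fintype Δ] {ℓ : ℕ} [Fact ℓ.Prime] {M : Ideal (integralClosure ℤ ℂ)}
    {U : Subgroup K} (hω : ω = MulAction.orbit U j₀) (hun : ∀ j, j ∈ ω) (g : Δ → G)
    (hg : g j₀ = 1) {β : G → FF M} {P : (Δ → (G → FF M) × FF M) → Prop} (hP : ∀ x, P x)
    (h2 : ∀ d ∈ chainsOn (psub ℓ G) ⊥, ∀ a ∈ IrrS (stab d), labF M a = β →
      red M ((Nat.card (stab d) : ℂ) / a 1) = 0) :
    ∑ v ∈ chainsOn (boxes ℓ G Δ) (fun _ => ⊥), (-1) ^ (v.card + 1) * (wt ω j₀ v *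
      (((charsOf v).filter (fun α => (U ≤ topSt K v α ∧ (∀ j, labF M (α j) = β) ∧
        P (dat M v α)) ∧ ∀ j ∈ ω, Carry v α j₀ j (g j))).card : ℤ)) = asum ℓ M β := by
  have hj : j₀ ∈ ω := hun j₀
  have hE : IsEmpty {j // j ∉ ω} := ⟨fun j => j.2 (hun j.1)⟩
  rw [sum_chains_filter (boxes ℓ G Δ) (fun _ => ⊥) (fun R => ∀ j ∈ ω, conjS (g j) (R j₀) = R j)]
  swap
  · rintro v _ ⟨R, hR, hn⟩
    have : (charsOf v).filter (fun α => (U ≤ topSt K v α ∧ (∀ j, labF M (α j) = β) ∧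
        P (dat M v α)) ∧ ∀ j ∈ ω, Carry v α j₀ j (g j)) = ∅ := by
      rw [Finset.filter_eq_empty_iff]
      rintro α _ ⟨_, hc⟩
      exact hn fun j hjω => (hc j hjω).1 R hR
    rw [this]; simp
  have e1 := map_psi (ω := ω) (j₀ := j₀) (hj := hj) (g := g) (hg := hg) (G := G) ℓ
  have e2 := psi_bot (ω := ω) (j₀ := j₀) (hj := hj) (g := g) (hg := hg)
  rw [← e1, ← e2, sum_chainsOn_map]
  have e3 : ∀ d ∈ chainsOn (psub ℓ G ×ˢ boxes ℓ G {j // j ∉ ω}) (⊥, fun _ => ⊥),
      (-1) ^ ((d.map (psi ω j₀ hj g hg).toEmbedding).card + 1) *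
        (wt ω j₀ (d.map (psi ω j₀ hj g hg).toEmbedding) *
      (((charsOf (d.map (psi ω j₀ hj g hg).toEmbedding)).filter (fun α =>
        (U ≤ topSt K (d.map (psi ω j₀ hj g hg).toEmbedding) α ∧ (∀ j, labF M (α j) = β) ∧
        P (dat M (d.map (psi ω j₀ hj g hg).toEmbedding) α)) ∧
        ∀ j ∈ ω, Carry (d.map (psi ω j₀ hj g hg).toEmbedding) α j₀ j (g j))).card : ℤ)) =
      (-1) ^ (d.card + 1) * (fun (c : Finset (Subgroup G))
        (c' : Finset ({j // j ∉ ω} → Subgroup G)) =>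
        ((Nat.card (stab c) : ℤ) *
          ((((IrrS_finite (stab c)).toFinset.filter (fun a => labF M a = β)).card : ℕ) : ℤ)) *
        ((∏ j : {j // j ∉ ω}, (Nat.card (colStab c' j) : ℤ)) *
          ((((charsOf c').filter (fun α => Bc ω U c' α ∧
            (∀ j : {j // j ∉ ω}, labF M (α j) = (fun _ : Δ => β) j) ∧
            P (dext M ω β c' α))).card : ℕ) : ℤ))) (im1 d) (im2 d) := by
    intro d hd
    rw [Finset.card_map, wt_psi, card_chars (β := fun _ => β) (P := P) hω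
      (fun _ _ => rfl) (im1_chain hd) h2]
    push_cast
    ring
  rw [Finset.sum_congr rfl e3]
  have e4 := sum_prod_chains (psub ℓ G) ⊥ (boxes ℓ G {j // j ∉ ω}) (fun _ => ⊥)
    (fun x _ => bot_le) (fun y _ => fun j => bot_le) (fun (c : Finset (Subgroup G))
        (c' : Finset ({j // j ∉ ω} → Subgroup G)) =>
        ((Nat.card (stab c) : ℤ) *
          ((((IrrS_finite (stab c)).toFinset.filter (fun a => labF M a = β)).card : ℕ) : ℤ)) *
        ((∏ j : {j // j ∉ ω}, (Nat.card (colStab c' j) : ℤ)) *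
          ((((charsOf c').filter (fun α => Bc ω U c' α ∧
            (∀ j : {j // j ∉ ω}, labF M (α j) = (fun _ : Δ => β) j) ∧
            P (dext M ω β c' α))).card : ℕ) : ℤ)))
  refine e4.trans ?_
  have e5 : ∀ c ∈ chainsOn (psub ℓ G) ⊥,
      (({a | a ∈ IrrS (stab c) ∧ labF M a = β}.ncard : ℕ) : ℤ) =
        ((((IrrS_finite (stab c)).toFinset.filter (fun a => labF M a = β)).card : ℕ) : ℤ) := by
    intro c _
    congr 1
    rw [← Set.ncard_coe_finset]
    congr 1
    ext a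
    simp
  unfold asum
  refine Finset.sum_congr rfl fun c hc => ?_
  rw [chains_empty hE, Finset.sum_singleton, Finset.card_singleton,
    Finset.filter_true_of_mem (s := charsOf _) (fun α _ =>
      ⟨fun _ _ i _ _ => hE.elim i, fun j => hE.elim j, hP _⟩), chars_empty hE,
    Finset.univ_eq_empty, Finset.prod_empty, e5 c hc]
  ring

end

/-- BOXT -/
theorem boxt : BoxtStmt := by
  intro ℓ _ M G Δ K _ _ _ _ _ _ j₀ β htr _ h2
  classical
  have : Fintype (Δ → G) := Fintype.ofFinite _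
  obtain ⟨P, hP⟩ : ∃ P : (Δ → (G → FF M) × FF M) → Prop, ∀ x, P x :=
    ⟨fun _ => True, fun _ => trivial⟩
  have hun : ∀ j, j ∈ MulAction.orbit (⊤ : Subgroup K) j₀ := by
    intro j
    obtain ⟨k, hk⟩ := htr j
    exact ⟨⟨k, trivial⟩, hk⟩
  have hprod : (∏ j : Δ, if j ∈ MulAction.orbit (⊤ : Subgroup K) j₀ ∧ j ≠ j₀ then (1 : ℤ)
      else (Nat.card G : ℤ)) = (Nat.card G : ℤ) := by
    have h1 : ∀ j : Δ, (if j ∈ MulAction.orbit (⊤ : Subgroup K) j₀ ∧ j ≠ j₀ then (1 : ℤ)
        else (Nat.card G : ℤ)) = if j = j₀ then (Nat.card G : ℤ) else 1 := by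
      intro j
      by_cases h : j = j₀
      · rw [if_neg (fun hc => hc.2 h), if_pos h]
      · rw [if_pos ⟨hun j, h⟩, if_neg h]
    rw [Finset.prod_congr rfl fun j _ => h1 j, Finset.prod_ite_eq' Finset.univ j₀]
    simp
  have hmain : (∑ v ∈ chainsOn (boxes ℓ G Δ) (fun _ => ⊥), (-1) ^ (v.card + 1) *
      ∑ α ∈ (charsOf v).filter (fun w => ⊤ ≤ topSt K v w ∧ ∀ j, labF M (w j) = β),
        ∏ j, (Nat.card (colStab v j) : ℤ)) *
      (∏ j : Δ, if j ∈ MulAction.orbit (⊤ : Subgroup K) j₀ ∧ j ≠ j₀ then (1 : ℤ)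
        else (Nat.card G : ℤ)) =
      ∑ g : Δ → G, ∑ v ∈ chainsOn (boxes ℓ G Δ) (fun _ => ⊥), (-1) ^ (v.card + 1) *
        (wt (MulAction.orbit (⊤ : Subgroup K) j₀) j₀ v *
      (((charsOf v).filter (fun α => ((⊤ : Subgroup K) ≤ topSt K v α ∧
        (∀ j, labF M (α j) = β) ∧ P (dat M v α)) ∧ ∀ j ∈ MulAction.orbit (⊤ : Subgroup K) j₀,
          Carry v α j₀ j (Function.update g j₀ 1 j))).card : ℤ)) := by
    rw [Finset.sum_comm, Finset.sum_mul]
    refine Finset.sum_congr rfl fun v _ => ?_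
    rw [← Finset.mul_sum, mul_assoc, ← Finset.mul_sum]
    congr 1
    rw [Finset.sum_mul]
    have e0 : (charsOf v).filter (fun w => ⊤ ≤ topSt K v w ∧ ∀ j, labF M (w j) = β) =
        (charsOf v).filter (fun α => (⊤ : Subgroup K) ≤ topSt K v α ∧
          (∀ j, labF M (α j) = β) ∧ P (dat M v α)) := by
      refine Finset.filter_congr fun α _ => ?_
      exact ⟨fun h => ⟨h.1, h.2, hP _⟩, fun h => ⟨h.1, h.2.1⟩⟩
    rw [e0]
    have e1 : ∀ α ∈ (charsOf v).filter (fun α => (⊤ : Subgroup K) ≤ topSt K v α ∧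
        (∀ j, labF M (α j) = β) ∧ P (dat M v α)), (∏ j, (Nat.card (colStab v j) : ℤ)) *
        (∏ j : Δ, if j ∈ MulAction.orbit (⊤ : Subgroup K) j₀ ∧ j ≠ j₀ then (1 : ℤ)
          else (Nat.card G : ℤ)) =
        wt (MulAction.orbit (⊤ : Subgroup K) j₀) j₀ v * ∑ g : Δ → G,
          if (∀ j ∈ MulAction.orbit (⊤ : Subgroup K) j₀,
            Carry v α j₀ j (Function.update g j₀ 1 j)) then (1 : ℤ) else 0 := by
      intro α hα
      rw [Finset.mem_filter, mem_charsOf] at hα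
      rw [count_carry rfl hα.1 hα.2.1, Finset.sum_boole]
    rw [Finset.sum_congr rfl e1, ← Finset.mul_sum]
    congr 1
    rw [Finset.sum_comm]
    refine Finset.sum_congr rfl fun g _ => ?_
    rw [Finset.sum_boole, Finset.filter_filter]
  rw [hprod, mul_comm] at hmain
  rw [hmain, Finset.sum_congr rfl fun g _ => fixed_val (U := (⊤ : Subgroup K)) rfl hun
    (Function.update g j₀ 1) (Function.update_self _ _ _) hP h2, Finset.sum_const,
    Finset.card_univ, nsmul_eq_mul]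
  congr 1
  rw [← Nat.card_eq_fintype_card, Nat.card_fun, Nat.card_eq_fintype_card (α := Δ)]
  push_cast
  rfl

end Pool.Agent.Helper29_CC
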